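import Pool.Agent.Helper51.AJ.St
import Pool.Agent.Helper51.AJ.Basic

/-!
# Project AJ (MP_d63854_co): module FEL (elementary minors)
-/

set_option autoImplicit false

namespace Pool.Agent.Helper42.AJ

open Pool.Agent.Helper51.AJ

private theorem con_map {V : Type} {G G' : SimpleGraph V} {S T : Set V} (r : V → V)
    (h1 : ∀ z ∈ S, r z ∈ T) (h2 : ∀ t ∈ T, ∃ z ∈ S, r z = t)
    (h3 : ∀ a ∈ S, ∀ b ∈ S, G.Adj a b → r a = r b ∨ G'.Adj (r a) (r b))
    (h : (G.induce S).Connected) : (G'.induce T).Connected := by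
  have key : ∀ (p q : S), (G.induce S).Walk p q →
      (G'.induce T).Reachable ⟨r p, h1 p p.2⟩ ⟨r q, h1 q q.2⟩ := by
    intro p q w
    induction w with
    | nil => exact SimpleGraph.Reachable.refl _
    | @cons a b c hab _ ih =>
      refine SimpleGraph.Reachable.trans ?_ ih
      have hab' : G.Adj (a : V) (b : V) := hab
      rcases h3 a a.2 b b.2 hab' with h4 | h4
      · have h5 : (⟨r a, h1 a a.2⟩ : T) = ⟨r b, h1 b b.2⟩ := Subtype.ext h4
        rw [h5]
      · exact SimpleGraph.Adj.reachable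
          (show (G'.induce T).Adj ⟨r a, h1 a a.2⟩ ⟨r b, h1 b b.2⟩ from h4)
  obtain ⟨s⟩ := h.nonempty
  have : Nonempty T := ⟨⟨r s, h1 s s.2⟩⟩
  refine ⟨?_⟩
  rintro ⟨t, ht⟩ ⟨t', ht'⟩
  obtain ⟨z, hz, rfl⟩ := h2 t ht
  obtain ⟨z', hz', rfl⟩ := h2 t' ht'
  obtain ⟨w⟩ := h.preconnected ⟨z, hz⟩ ⟨z', hz'⟩
  exact key ⟨z, hz⟩ ⟨z', hz'⟩ w

private theorem ctr_adj {n : ℕ} {A : Fin n → Fin n → Bool} {x y : Fin n} (hxy : x ≠ y)
    {a b : Fin n} (h : (ga A).Adj a b) :
    (if a = y then x else a) = (if b = y then x else b) ∨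
      (ga (ctr A x y)).Adj (if a = y then x else a) (if b = y then x else b) := by
  obtain ⟨hab, h⟩ := h
  by_cases ha : a = y
  · have hb : b ≠ y := fun hb => hab (ha.trans hb.symm)
    rw [if_pos ha, if_neg hb]
    by_cases hxb : x = b
    · exact Or.inl hxb
    · refine Or.inr ⟨hxb, Or.inl ?_⟩
      subst ha
      have h1 : at2 A a b = true := by
        unfold at2
        simp only [Bool.and_eq_true, bne_iff_ne, ne_eq, Bool.or_eq_true]
        exact ⟨hab, h⟩
      unfold ctr
      simp [h1]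
  · rw [if_neg ha]
    by_cases hb : b = y
    · rw [if_pos hb]
      by_cases hxa : a = x
      · exact Or.inl hxa
      · refine Or.inr ⟨hxa, Or.inl ?_⟩
        subst hb
        have h1 : at2 A a b = true := by
          unfold at2
          simp only [Bool.and_eq_true, bne_iff_ne, ne_eq, Bool.or_eq_true]
          exact ⟨hab, h⟩
        unfold ctr
        simp [h1]
    · rw [if_neg hb]
      refine Or.inr ⟨hab, ?_⟩
      unfold ctr
      rcases h with h | h
      · left
        simp [h]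
      · right
        simp [h]

private theorem contr {n : ℕ} {A : Fin n → Fin n → Bool} {l : List (Fin n)} {W : Type}
    {H : SimpleGraph W} {φ : W → Set (Fin n)} (hl : ∀ w, φ w ⊆ {x | x ∈ l})
    (hc : ∀ w, ((ga A).induce (φ w)).Connected) (hd : ∀ w w', w ≠ w' → Disjoint (φ w) (φ w'))
    (he : ∀ w w', H.Adj w w' → ∃ x ∈ φ w, ∃ y ∈ φ w', (ga A).Adj x y)
    {w : W} {x y : Fin n} (hx : x ∈ φ w) (hy : y ∈ φ w) (hxy : x ≠ y) :
    Mod H (ga (ctr A x y)) {z | z ∈ l.erase y} := by
  have hr : ∀ v, ∀ z ∈ φ v, (if z = y then x else z) ∈ φ v \ {y} := by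
    intro v z hz
    by_cases h : z = y
    · rw [if_pos h]
      subst h
      have hv : v = w := by
        by_contra hne
        exact Set.disjoint_left.1 (hd v w hne) hz hy
      rw [hv]
      exact ⟨hx, hxy⟩
    · rw [if_neg h]
      exact ⟨hz, h⟩
  refine ⟨fun v => φ v \ {y}, ?_, ?_, ?_, ?_⟩
  · intro v z hz
    exact (List.mem_erase_of_ne hz.2).2 (hl v hz.1)
  · intro v
    refine con_map (fun z => if z = y then x else z) (hr v) ?_ ?_ (hc v)
    · intro t ht
      exact ⟨t, ht.1, if_neg ht.2⟩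
    · intro a _ b _ hab
      exact ctr_adj hxy hab
  · intro v v' hne
    exact (hd v v' hne).mono Set.sdiff_subset Set.sdiff_subset
  · intro v v' hvv
    obtain ⟨a, ha, b, hb, hab⟩ := he v v' hvv
    refine ⟨_, hr v a ha, _, hr v' b hb, ?_⟩
    rcases ctr_adj hxy hab with h | h
    · exfalso
      exact Set.disjoint_left.1 (hd v v' hvv.ne) (hr v a ha).1 (h ▸ (hr v' b hb).1)
    · exact h

theorem hFEL : StFel := by
  intro n A l W H hnd hM
  obtain ⟨φ, hl, hc, hd, he⟩ := hM
  by_cases h1 : ∃ x ∈ l, ∀ w, x ∉ φ w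
  · obtain ⟨x, hx, hxw⟩ := h1
    refine Or.inl ⟨x, hx, φ, ?_, hc, hd, he⟩
    intro w z hz
    have hne : z ≠ x := by
      rintro rfl
      exact hxw w hz
    exact (List.mem_erase_of_ne hne).2 (hl w hz)
  · push Not at h1
    right
    by_cases h2 : ∃ w, ∃ p ∈ φ w, ∃ q ∈ φ w, p ≠ q
    · left
      obtain ⟨w, p, hp, q, hq, hpq⟩ := h2
      obtain ⟨wk⟩ := (hc w).preconnected ⟨p, hp⟩ ⟨q, hq⟩
      have hedge : ∃ x ∈ φ w, ∃ y ∈ φ w, (ga A).Adj x y := by
        cases wk with
        | nil => exact absurd rfl hpq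
        | @cons _ b _ hab _ => exact ⟨p, hp, b, b.2, hab⟩
      obtain ⟨x, hx, y, hy, hxy⟩ := hedge
      have hat : ∀ a b : Fin n, (ga A).Adj a b → at2 A a b = true := by
        intro a b hab
        unfold at2
        simp only [Bool.and_eq_true, bne_iff_ne, ne_eq, Bool.or_eq_true]
        exact hab
      rcases lt_or_gt_of_ne hxy.1 with hlt | hlt
      · exact ⟨x, hl w hx, y, hl w hy, hlt, hat _ _ hxy, contr hl hc hd he hx hy hlt.ne⟩
      · exact ⟨y, hl w hy, x, hl w hx, hlt, hat _ _ hxy.symm, contr hl hc hd he hy hx hlt.ne⟩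
    · push Not at h2
      right
      have hne : ∀ w, ∃ z, z ∈ φ w := by
        intro w
        obtain ⟨z⟩ := (hc w).nonempty
        exact ⟨z, z.2⟩
      choose f hf using hne
      refine ⟨f, ?_, ?_, ?_⟩
      · intro w w' hww
        by_contra hne
        exact Set.disjoint_left.1 (hd w w' hne) (hf w) (hww ▸ hf w')
      · intro a
        constructor
        · intro ha
          obtain ⟨w, hw⟩ := h1 a ha
          exact ⟨w, h2 w _ (hf w) _ hw⟩
        · rintro ⟨w, rfl⟩
          exact hl w (hf w)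
      · intro w w' hww
        obtain ⟨a, ha, b, hb, hab⟩ := he w w' hww
        rw [h2 w _ (hf w) _ ha, h2 w' _ (hf w') _ hb]
        exact hab

end Pool.Agent.Helper42.AJ
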